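import Pool.Agent.N604.MW.Stm10

/-!
# Project AD, part AEXP (helper526): the full sums in terms of the sums over blocks
-/

set_option autoImplicit false

namespace Pool.Agent.N526.AD

open Finset MeasureTheory Filter Pool.Agent.N604.MW

theorem sum_abs (F : ℕ → ℂ) (N : ℕ) :
    ∑ x ∈ Finset.Ioo (-(N : ℤ)) (N : ℤ), F x.natAbs = ∑ n ∈ range N, (wt n : ℂ) * F n := by
  induction N with
  | zero => simp
  | succ N ih =>
    rw [Finset.sum_range_succ, ← ih]
    rcases Nat.eq_zero_or_pos N with h | h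
    · subst h
      have e : Finset.Ioo (-((0 + 1 : ℕ) : ℤ)) ((0 + 1 : ℕ) : ℤ) = {0} := by decide
      rw [e]
      simp [wt]
    · have e : Finset.Ioo (-((N + 1 : ℕ) : ℤ)) ((N + 1 : ℕ) : ℤ) =
          insert (-(N : ℤ)) (insert (N : ℤ) (Finset.Ioo (-(N : ℤ)) (N : ℤ))) := by
        ext x
        simp only [Finset.mem_Ioo, Finset.mem_insert]
        omega
      have h1 : (-(N : ℤ)) ∉ insert (N : ℤ) (Finset.Ioo (-(N : ℤ)) (N : ℤ)) := by
        simp only [Finset.mem_Ioo, Finset.mem_insert]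
        omega
      have h2 : (N : ℤ) ∉ Finset.Ioo (-(N : ℤ)) (N : ℤ) := by
        simp only [Finset.mem_Ioo]
        omega
      rw [e, Finset.sum_insert h1, Finset.sum_insert h2]
      have e1 : (-(N : ℤ)).natAbs = N := by omega
      have e2 : ((N : ℤ)).natAbs = N := by omega
      rw [e1, e2]
      unfold wt
      rw [if_neg (by omega)]
      push_cast
      ring

theorem sum_blk (G : ℕ → ℂ) (ν : ℕ) :
    ∑ n ∈ range (2 ^ ν), G n = ∑ c ∈ range (ν + 1), ∑ n ∈ Blk c, G n := by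
  induction ν with
  | zero => simp [Blk]
  | succ ν ih =>
    rw [Finset.sum_range_succ _ (ν + 1), ← ih]
    have e : Blk (ν + 1) = Finset.Ico (2 ^ ν) (2 ^ (ν + 1)) := by
      simp [Blk]
    rw [e]
    exact (Finset.sum_range_add_sum_Ico G (Nat.pow_le_pow_right (by norm_num) (by omega))).symm

theorem sg_eq (k ν : ℕ) (a t : ℝ) :
    SG (BX ν) (fk k a) t = ∑ c ∈ range (ν + 1), SX k c (a * t) := by
  have h1 : SG (BX ν) (fk k a) t =
      ∑ x ∈ Finset.Ioo (-((2 ^ ν : ℕ) : ℤ)) ((2 ^ ν : ℕ) : ℤ),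
        (fun n : ℕ => e (a * t * (n : ℝ) ^ k)) x.natAbs := by
    unfold SG BX
    push_cast
    refine Finset.sum_congr rfl fun x _ => ?_
    have e1 : ((x.natAbs : ℕ) : ℝ) = |(x : ℝ)| := by
      rw [Nat.cast_natAbs, Int.cast_abs]
    rw [e1]
    unfold fk
    congr 1
    ring
  rw [h1, sum_abs (fun n : ℕ => e (a * t * (n : ℝ) ^ k)) (2 ^ ν),
    sum_blk (fun n : ℕ => (wt n : ℂ) * e (a * t * (n : ℝ) ^ k)) ν]
  rfl

theorem e_cont : Continuous e := by
  unfold e
  fun_prop

theorem e_norm (x : ℝ) : ‖e x‖ = 1 := by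
  unfold e
  rw [show (2 * Real.pi * x * Complex.I : ℂ) = ((2 * Real.pi * x : ℝ) : ℂ) * Complex.I by
    push_cast; ring]
  exact Complex.norm_exp_ofReal_mul_I _

theorem sx_cont (k c : ℕ) : Continuous (SX k c) := by
  unfold SX
  refine continuous_finsetSum _ fun x _ => ?_
  exact continuous_const.mul (e_cont.comp (by fun_prop))

theorem wt_nonneg (x : ℕ) : 0 ≤ wt x := by
  unfold wt
  split_ifs <;> norm_num

theorem sx_norm (k c : ℕ) (y : ℝ) : ‖SX k c y‖ ≤ ∑ x ∈ Blk c, wt x := by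
  unfold SX
  refine (norm_sum_le _ _).trans (Finset.sum_le_sum fun x _ => ?_)
  rw [norm_mul, e_norm, mul_one, Complex.norm_real, Real.norm_of_nonneg (wt_nonneg x)]

theorem integ (h : S_ATRI) (s k : ℕ) (a : Fin s → ℕ) (α : Fin s → ℝ) (n : ℤ) :
    Integrable (fun t : ℝ => (sq t : ℂ) * (∏ i, SX k (a i) (α i * t)) * e (-(t * n))) := by
  have h1 : Integrable (fun t : ℝ => (sq t : ℂ)) := h.1.ofReal
  have hc : Continuous (fun t : ℝ => (∏ i, SX k (a i) (α i * t)) * e (-(t * n))) := by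
    refine (continuous_finsetProd _ fun i _ => (sx_cont k (a i)).comp (by fun_prop)).mul
      (e_cont.comp (by fun_prop))
  have hb : ∀ t : ℝ, ‖(∏ i, SX k (a i) (α i * t)) * e (-(t * n))‖ ≤
      ∏ i, ∑ x ∈ Blk (a i), wt x := by
    intro t
    rw [norm_mul, e_norm, mul_one, norm_prod]
    exact Finset.prod_le_prod (fun i _ => norm_nonneg _) fun i _ => sx_norm k (a i) _
  have h2 : Integrable (fun t : ℝ => (sq t : ℂ) * ((∏ i, SX k (a i) (α i * t)) * e (-(t * n)))) :=
    h1.mul_bdd (c := ∏ i, ∑ x ∈ Blk (a i), wt x) hc.aestronglyMeasurable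
      (Filter.Eventually.of_forall hb)
  refine h2.congr (Filter.Eventually.of_forall fun t => ?_)
  simp only [mul_assoc]

theorem eg_eq (h : S_ATRI) (s k ν : ℕ) (η : ℝ) (α : Fin s → ℝ) (n : ℤ) :
    EG (fun _ => BX ν) (fun i => fk k (α i)) η n =
      ∑ a ∈ Fintype.piFinset (fun _ : Fin s => range (ν + 1)), EA s k a η α n := by
  unfold EG EA
  rw [← integral_finsetSum _ fun a _ => (integ h s k a α n).integrableOn]
  refine integral_congr_ae (Filter.Eventually.of_forall fun t => ?_)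
  simp only
  rw [Finset.prod_congr rfl fun i _ => sg_eq k ν (α i) t, Finset.prod_univ_sum, Finset.mul_sum,
    Finset.sum_mul]

theorem aexp (h : S_ATRI) : S_AEXP := by
  intro s k ν η E0 α n h0 hE
  rw [eg_eq h]
  refine (norm_sum_le _ _).trans ?_
  have h1 : ∀ a ∈ Fintype.piFinset (fun _ : Fin s => range (ν + 1)), ‖EA s k a η α n‖ ≤ E0 := by
    intro a ha
    refine hE a fun i => ?_
    have := Finset.mem_range.1 (Fintype.mem_piFinset.1 ha i)
    omega
  refine (Finset.sum_le_card_nsmul _ _ _ h1).trans ?_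
  rw [Fintype.card_piFinset_const, card_range, nsmul_eq_mul]
  push_cast
  exact le_refl _

end Pool.Agent.N526.AD
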