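import Pool.Agent.N604.MW.Stm12
import Pool.Agent.N526.AD_AEXP

/-!
# Project AK, part KEXP (helper526): the full sums in terms of the sums over signed blocks
-/

set_option autoImplicit false

namespace Pool.Agent.N526.AK

open Finset MeasureTheory Filter Pool.Agent.N604.MW Pool.Agent.N526.AD

theorem sum_pm (F : ℤ → ℂ) (N : ℕ) :
    ∑ x ∈ Finset.Ioo (-(N : ℤ)) (N : ℤ), F x =
      ∑ n ∈ range N, (F n + if n = 0 then 0 else F (-(n : ℤ))) := by
  induction N with
  | zero => simp
  | succ N ih =>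
    rw [Finset.sum_range_succ, ← ih]
    rcases Nat.eq_zero_or_pos N with h | h
    · subst h
      have e : Finset.Ioo (-((0 + 1 : ℕ) : ℤ)) ((0 + 1 : ℕ) : ℤ) = {0} := by decide
      rw [e]
      simp
    · have e : Finset.Ioo (-((N + 1 : ℕ) : ℤ)) ((N + 1 : ℕ) : ℤ) =
          insert (-(N : ℤ)) (insert (N : ℤ) (Finset.Ioo (-(N : ℤ)) (N : ℤ))) := by
        ext x
        simp only [Finset.mem_Ioo, Finset.mem_insert]
        omega
      have h1 : (-(N : ℤ)) ∉ insert (N : ℤ) (Finset.Ioo (-(N : ℤ)) (N : ℤ)) := by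
        simp only [Finset.mem_Ioo, Finset.mem_insert]
        omega
      have h2 : (N : ℤ) ∉ Finset.Ioo (-(N : ℤ)) (N : ℤ) := by
        simp only [Finset.mem_Ioo]
        omega
      rw [e, Finset.sum_insert h1, Finset.sum_insert h2, if_neg (by omega)]
      ring

theorem zb_sum (F : ℤ → ℂ) (a : ℕ) :
    ∑ σ : Bool, ∑ x ∈ ZB a σ, F x =
      ∑ n ∈ Blk a, (F n + if n = 0 then 0 else F (-(n : ℤ))) := by
  rw [Fintype.sum_bool, Finset.sum_add_distrib]
  have e1 : ∑ x ∈ ZB a true, F x = ∑ n ∈ Blk a, F n := by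
    unfold ZB
    rw [if_pos rfl, Finset.sum_image]
    intro x _ y _ h
    exact Nat.cast_injective h
  have e2 : ∑ x ∈ ZB a false, F x = ∑ n ∈ Blk a, (if n = 0 then 0 else F (-(n : ℤ))) := by
    rcases Nat.eq_zero_or_pos a with h | h
    · subst h
      simp [ZB, Blk]
    · unfold ZB
      rw [if_neg (by simp), if_neg (by omega), Finset.sum_image]
      · refine Finset.sum_congr rfl fun n hn => ?_
        have h3 : n ≠ 0 := by
          intro h4
          subst h4
          unfold Blk at hn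
          rw [if_neg (by omega), Finset.mem_Ico] at hn
          have := Nat.pos_of_ne_zero (pow_ne_zero (a - 1) (two_ne_zero (α := ℕ)))
          omega
        rw [if_neg h3]
      · intro x _ y _ h5
        exact Nat.cast_injective (neg_injective h5)
  rw [e1, e2]

theorem sg_eq (ν : ℕ) (f : ℤ → ℝ) (t : ℝ) :
    SG (BX ν) f t =
      ∑ p ∈ range (ν + 1) ×ˢ (Finset.univ : Finset Bool), SG (ZB p.1 p.2) f t := by
  have h1 : SG (BX ν) f t =
      ∑ x ∈ Finset.Ioo (-((2 ^ ν : ℕ) : ℤ)) ((2 ^ ν : ℕ) : ℤ), e (t * f x) := by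
    unfold SG BX
    push_cast
    rfl
  rw [h1, sum_pm (fun x => e (t * f x)) (2 ^ ν),
    sum_blk (fun n : ℕ => (e (t * f n) + if n = 0 then 0 else e (t * f (-(n : ℤ))))) ν,
    Finset.sum_product]
  refine Finset.sum_congr rfl fun a _ => ?_
  exact (zb_sum (fun x => e (t * f x)) a).symm

theorem sg_cont (A : Finset ℤ) (f : ℤ → ℝ) : Continuous (SG A f) := by
  unfold SG
  refine continuous_finsetSum _ fun x _ => ?_
  exact e_cont.comp (by fun_prop)

theorem sg_norm (A : Finset ℤ) (f : ℤ → ℝ) (t : ℝ) : ‖SG A f t‖ ≤ A.card := by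
  unfold SG
  refine (norm_sum_le _ _).trans ?_
  rw [Finset.sum_congr rfl fun x _ => e_norm (t * f x)]
  simp

theorem integ (h : S_ATRI) {s : ℕ} (A : Fin s → Finset ℤ) (f : Fin s → ℤ → ℝ) (n : ℤ) :
    Integrable (fun t : ℝ => (sq t : ℂ) * (∏ i, SG (A i) (f i) t) * e (-(t * n))) := by
  have h1 : Integrable (fun t : ℝ => (sq t : ℂ)) := h.1.ofReal
  have hc : Continuous (fun t : ℝ => (∏ i, SG (A i) (f i) t) * e (-(t * n))) :=
    (continuous_finsetProd _ fun i _ => sg_cont (A i) (f i)).mul (e_cont.comp (by fun_prop))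
  have hb : ∀ t : ℝ, ‖(∏ i, SG (A i) (f i) t) * e (-(t * n))‖ ≤ ∏ i, ((A i).card : ℝ) := by
    intro t
    rw [norm_mul, e_norm, mul_one, norm_prod]
    exact Finset.prod_le_prod (fun i _ => norm_nonneg _) fun i _ => sg_norm (A i) (f i) t
  have h2 : Integrable (fun t : ℝ => (sq t : ℂ) * ((∏ i, SG (A i) (f i) t) * e (-(t * n)))) :=
    h1.mul_bdd (c := ∏ i, ((A i).card : ℝ)) hc.aestronglyMeasurable
      (Filter.Eventually.of_forall hb)
  refine h2.congr (Filter.Eventually.of_forall fun t => ?_)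
  simp only [mul_assoc]

theorem eg_eq (h : S_ATRI) {s : ℕ} (ν : ℕ) (f : Fin s → ℤ → ℝ) (η : ℝ) (n : ℤ) :
    EG (fun _ => BX ν) f η n =
      ∑ q ∈ Fintype.piFinset (fun _ : Fin s => range (ν + 1) ×ˢ (Finset.univ : Finset Bool)),
        EG (fun i => ZB (q i).1 (q i).2) f η n := by
  have hi : ∀ q ∈ Fintype.piFinset (fun _ : Fin s =>
      range (ν + 1) ×ˢ (Finset.univ : Finset Bool)),
      Integrable (fun t : ℝ => (sq t : ℂ) * (∏ i, SG (ZB (q i).1 (q i).2) (f i) t) *
        e (-(t * n))) (volume.restrict {t : ℝ | η ≤ |t|}) := fun q _ =>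
    (integ h (fun i => ZB (q i).1 (q i).2) f n).integrableOn
  refine Eq.trans ?_ (integral_finsetSum _ hi)
  unfold EG
  refine integral_congr_ae (Filter.Eventually.of_forall fun t => ?_)
  simp only
  rw [Finset.prod_congr rfl fun i _ => sg_eq ν (f i) t, Finset.prod_univ_sum, Finset.mul_sum,
    Finset.sum_mul]

theorem kexp (h : S_ATRI) : S_KEXP := by
  intro s ν f η E0 n h0 hE
  rw [eg_eq h]
  refine (norm_sum_le _ _).trans ?_
  have h1 : ∀ q ∈ Fintype.piFinset (fun _ : Fin s =>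
      range (ν + 1) ×ˢ (Finset.univ : Finset Bool)),
      ‖EG (fun i => ZB (q i).1 (q i).2) f η n‖ ≤ E0 := by
    intro q hq
    refine hE (fun i => (q i).1) (fun i => (q i).2) fun i => ?_
    have := Finset.mem_range.1 (Finset.mem_product.1 (Fintype.mem_piFinset.1 hq i)).1
    omega
  refine (Finset.sum_le_card_nsmul _ _ _ h1).trans ?_
  rw [Fintype.card_piFinset_const, Finset.card_product, card_range, Finset.card_univ,
    Fintype.card_bool, nsmul_eq_mul]
  push_cast
  rw [mul_comm ((ν : ℝ) + 1) 2]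

end Pool.Agent.N526.AK
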